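import Mathlib

namespace Pool.Agent.Results.MP_64c30f_co.HoffmanSingleton

/-- `CopWin G C r`: with the cops at `C`, the robber at `r` and the cops to move, the cops can
force a capture in finitely many moves. -/
inductive CopWin {V : Type} (G : SimpleGraph V) {k : ℕ} : (Fin k → V) → V → Prop
  | catch_ (C C' : Fin k → V) (r : V) : (∀ i, C' i = C i ∨ G.Adj (C i) (C' i)) →
      (∃ i, C' i = r) → CopWin G C r
  | move (C C' : Fin k → V) (r : V) : (∀ i, C' i = C i ∨ G.Adj (C i) (C' i)) →
      (∀ r', r' = r ∨ G.Adj r r' → CopWin G C' r') → CopWin G C r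

/-- The cop number. -/
noncomputable def copNumber {V : Type} (G : SimpleGraph V) : ℕ :=
  sInf {k | ∃ C : Fin k → V, ∀ r, CopWin G C r}

/-- A pebbling move. -/
def PebMove {V : Type} [DecidableEq V] (G : SimpleGraph V) (D D' : V → ℕ) : Prop :=
  ∃ u v, G.Adj u v ∧ 2 ≤ D u ∧ D' = Function.update (Function.update D u (D u - 2)) v (D v + 1)

/-- The optimal pebbling number. -/
noncomputable def optPebbling {V : Type} [DecidableEq V] [Fintype V] (G : SimpleGraph V) : ℕ :=
  sInf {m | ∃ D : V → ℕ, ∑ v, D v = m ∧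
    ∀ r, ∃ D', Relation.ReflTransGen (PebMove G) D D' ∧ 1 ≤ D' r}

def M : Fin 50 → ℕ := ![36319350751250, 72638701502469, 145277403004938, 290554806009876, 581109612019721, 571885666435648, 53055798116512, 72026735771968, 142988319654528, 285943353311520, 284228084320256, 567391016719360, 44066498684928, 88099711373312, 142114562253824, 158407017955328, 282729174433792, 565425062871040, 40134590988288, 79204029071360, 75058900893696, 150084483284992, 299103814680576, 564122768900096, 37529970540544, 403735585, 807471170, 574754948, 109322504, 218645008, 12887138817, 25774276642, 18262524996, 3238037640, 6443569424, 412321581313, 824642146818, 584132403236, 103080411208, 206160790672, 13194148003969, 26388295976194, 18691698985476, 3298537508904, 6597074002000, 422212482109505, 844424931713154, 598134327656708, 105553120527880, 211106241054768]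

def A (u v : Fin 50) : Bool := (M u).testBit v

theorem A_symm : ∀ u v, A u v = A v u := by decide +kernel

def G : SimpleGraph (Fin 50) where
  Adj u v := A u v = true
  symm := ⟨fun u v h => by rwa [A_symm v u]⟩
  loopless := ⟨by decide +kernel⟩

instance : DecidableRel G.Adj := fun u v => inferInstanceAs (Decidable (A u v = true))

theorem near : ∀ r : Fin 50, r = 0 ∨ G.Adj 0 r ∨ ∃ w, G.Adj 0 w ∧ G.Adj w r ∧ r ≠ 0 := by
  decide +kernel

theorem one : ∀ r x : Fin 50, x ≠ r →
    (Finset.univ.filter (fun y => G.Adj r y ∧ (x = y ∨ G.Adj x y))).card ≤ 1 := by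
  decide +kernel

theorem seven : ∀ r : Fin 50, (Finset.univ.filter (fun y => G.Adj r y)).card = 7 := by
  decide +kernel

theorem escape {k : ℕ} (hk : k ≤ 6) (C : Fin k → Fin 50) (r : Fin 50) (h : ∀ i, C i ≠ r) :
    ∃ y, G.Adj r y ∧ ∀ i, ¬ (C i = y ∨ G.Adj (C i) y) := by
  by_contra hn
  have h1 : Finset.univ.filter (fun y => G.Adj r y) ⊆ Finset.univ.biUnion
      (fun i => Finset.univ.filter (fun y => G.Adj r y ∧ (C i = y ∨ G.Adj (C i) y))) := by
    intro y hy
    simp only [Finset.mem_filter, Finset.mem_univ, true_and, Finset.mem_biUnion] at hy ⊢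
    by_contra h2
    exact hn ⟨y, hy, fun i hi => h2 ⟨i, hy, hi⟩⟩
  have h2 := (Finset.card_le_card h1).trans
    (Finset.card_biUnion_le_card_mul _ _ 1 (fun i _ => one r (C i) (h i)))
  rw [seven] at h2
  simp at h2
  omega

theorem robber {k : ℕ} (hk : k ≤ 6) (C : Fin k → Fin 50) (r : Fin 50) (h : CopWin G C r) :
    ¬ ∀ i, ¬ (C i = r ∨ G.Adj (C i) r) := by
  induction h with
  | catch_ C C' r h1 h2 =>
    intro h
    obtain ⟨i, rfl⟩ := h2
    exact h i ((h1 i).imp_left Eq.symm)
  | move C C' r h1 _ ih =>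
    intro h
    obtain ⟨y, hy, h2⟩ := escape hk C' r
      (fun i e => h i (e ▸ (h1 i).imp_left Eq.symm))
    exact ih y (Or.inr hy) h2

theorem cop_ge : 7 ≤ copNumber G := by
  refine le_csInf ⟨50, id, fun r => CopWin.catch_ id id r (fun _ => Or.inl rfl) ⟨r, rfl⟩⟩ ?_
  rintro k ⟨C, hC⟩
  by_contra hk
  obtain ⟨r, hr⟩ : ∃ r, ∀ i, C i ≠ r := by
    by_contra h
    push Not at h
    have := Fintype.card_le_of_surjective C h
    simp at this; omega
  obtain ⟨y, _, hy⟩ := escape (by omega) C r hr
  exact robber (by omega) C y (hC y) hy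

theorem peb_le : optPebbling G ≤ 4 := by
  refine Nat.sInf_le ⟨fun v => if v = 0 then 4 else 0, by simp, fun r => ?_⟩
  rcases near r with rfl | h | ⟨w, h1, h2, h3⟩
  · exact ⟨_, .refl, by simp⟩
  · exact ⟨_, .single ⟨0, r, h, by simp, rfl⟩, by simp⟩
  · have hw : w ≠ 0 := h1.ne'
    refine ⟨_, .tail (.tail (.single ⟨0, w, h1, by simp, rfl⟩) ⟨0, w, h1, ?_, rfl⟩)
      ⟨w, r, h2, ?_, rfl⟩, by simp⟩
    · simp [Function.update_of_ne hw.symm]
    · simp [hw]

theorem result : ∃ (n : ℕ) (G : SimpleGraph (Fin n)), G.Connected ∧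
    (∃ D : Fin n → ℕ, ∀ r, ∃ D', Relation.ReflTransGen (PebMove G) D D' ∧ 1 ≤ D' r) ∧
    optPebbling G < copNumber G := by
  refine ⟨50, G, ⟨fun u v => ?_⟩, ⟨fun _ => 1, fun r => ⟨_, .refl, le_rfl⟩⟩,
    by have := cop_ge; have := peb_le; omega⟩
  have : ∀ r, G.Reachable 0 r := by
    intro r
    rcases near r with rfl | h | ⟨w, h1, h2, _⟩
    · rfl
    · exact h.reachable
    · exact h1.reachable.trans h2.reachable
  exact (this u).symm.trans (this v)

end Pool.Agent.Results.MP_64c30f_co.HoffmanSingleton
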